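import Pool.Agent.Helper19.HN.St

set_option autoImplicit false

/-! # HN: module CLB, the closed unbounded set of good points -/

namespace Pool.Agent.Helper80.HN.CLB

open Ordinal Cardinal ZFSet Order Pool.Agent.Helper73.HODC Pool.Agent.Helper73.HM
open Pool.Agent.Helper73.HE Pool.Agent.Helper73.HU Pool.Agent.Helper19.HN

/-- one bound for the first differences of all pairs with index at most `η` -/
theorem exists_dl {c : Cardinal.{0}} (hc : c.IsRegular) (hc' : ℵ₀ < c)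
    {X : Ordinal.{0} → ZFSet.{0}} (hX : ∀ k < c.ord, X k ∈ hodPow c.ord) {η : Ordinal.{0}}
    (hη : η < c.ord) :
    ∃ δ < c.ord, ∀ k ≤ η, ∀ k' ≤ η, X k ≠ X k' → ∀ g, δ < g → cut (X k) g ≠ cut (X k') g := by
  have hlim : IsSuccLimit c.ord := isSuccLimit_of_cof (reg_cof hc hc')
  have h0 : 0 < c.ord := pos_of_cof (reg_cof hc hc')
  have hs : Order.succ η < c.ord := hlim.succ_lt hη
  have h1 : ∀ k k' : Ordinal.{0}, ∃ d < c.ord, k < c.ord → k' < c.ord → X k ≠ X k' →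
      ∀ g, d < g → cut (X k) g ≠ cut (X k') g := by
    intro k k'
    by_cases h : k < c.ord ∧ k' < c.ord ∧ X k ≠ X k'
    · obtain ⟨d, hd, h2⟩ := exists_diff (hX k h.1) (hX k' h.2.1) h.2.2
      exact ⟨d, hd, fun _ _ _ => h2⟩
    · exact ⟨0, h0, fun a b e => absurd ⟨a, b, e⟩ h⟩
  choose d hd hd' using h1
  have h2 : Club {a | ∀ k < Order.succ η, a ∈ {a | ∀ k' < Order.succ η, a ∈ {a | d k k' < a}}}
      c.ord :=
    Club.biInter hc hc' hs fun k _ => Club.biInter hc hc' hs fun k' _ => club_Ioi hlim (hd k k')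
  obtain ⟨δ, hδ, -, hδc⟩ := h2.1 0 h0
  refine ⟨δ, hδc, fun k hk k' hk' hne g hg => ?_⟩
  have hk1 : k < Order.succ η := Order.lt_succ_of_le hk
  have hk2 : k' < Order.succ η := Order.lt_succ_of_le hk'
  have h3 : d k k' < δ := hδ k hk1 k' hk2
  exact hd' k k' (hk1.trans hs) (hk2.trans hs) hne g (h3.trans hg)

/-- the bad points of small cofinality are not stationary -/
theorem nonstat {κ θ c : Cardinal.{0}} {X : Ordinal.{0} → ZFSet.{0}} (hat : AtomsT κ θ)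
    (hc : c.IsRegular) (hθ : θ < c)
    (h : ∀ A, Atm c.ord A → (∀ a ∈ A, a.cof < κ) →
      ¬ Stat {i | i ∈ A ∧ i ∈ BadSet X} c.ord) :
    ¬ Stat {i | i.cof < κ ∧ i ∈ BadSet X} c.ord := by
  intro hT
  obtain ⟨A, hA, hAX, hS⟩ := hat c.ord {a | a.cof < κ} {i | i.cof < κ ∧ i ∈ BadSet X}
    (by rw [hc.cof_ord]; exact hθ) (Inp.cf κ 0) hT (fun a ha => ha.1) (fun a ha => ha)
  exact h A hA (fun a ha => hAX a ha) (hS.mono fun a ha _ => ⟨ha.1, ha.2.2⟩)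

/-- the points of uncountable cofinality -/
theorem good {c i : Ordinal.{0}} {X : Ordinal.{0} → ZFSet.{0}} {C1 : Set Ordinal.{0}}
    {dl : Ordinal.{0} → Ordinal.{0}} (hX : ∀ k < c, X k ∈ hodPow c) (hi : i < c)
    (hcof : ℵ₀ < i.cof) (hC1 : Club C1 i)
    (hgood : ∀ j ∈ C1, j < i → j.cof = ℵ₀ → j ∉ BadSet X) (hdl : ∀ η < i, dl η < i)
    (hdl' : ∀ η < i, ∀ k ≤ η, ∀ k' ≤ η, X k ≠ X k' → ∀ g, dl η < g →
      cut (X k) g ≠ cut (X k') g) : i ∉ BadSet X := by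
  rintro ⟨y, hy, hbad⟩
  have hlim : IsSuccLimit i := isSuccLimit_of_cof hcof
  have hS : Stat ({j : Ordinal.{0} | j.cof = ℵ₀} ∩ C1) i :=
    (stat_cof_omega hcof).inter_club hcof hC1
  have h1 : ∀ j : Ordinal.{0}, ∃ r, j ∈ {j : Ordinal.{0} | j.cof = ℵ₀} ∩ C1 → j < i →
      r < j ∧ cut (X r) j = cut y j := by
    intro j
    by_cases hj : j ∈ {j : Ordinal.{0} | j.cof = ℵ₀} ∩ C1 ∧ j < i
    · by_contra hcon
      push Not at hcon
      exact hgood j hj.1.2 hj.2 hj.1.1 ⟨cut y j, cut_mem hy j, fun k hk => (hcon k).2.2 hk⟩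
    · exact ⟨0, fun a b => absurd ⟨a, b⟩ hj⟩
  choose r hr using h1
  obtain ⟨η, hη, hst⟩ := Inp.fo i _ r hcof hS (fun a ha hai _ => (hr a ha hai).1)
  obtain ⟨j0, ⟨hj0, hrj0⟩, hj0', hj0i⟩ := hst _ (club_Ioi hlim (hdl η hη))
  obtain ⟨hr0, hc0⟩ := hr j0 hj0 hj0i
  refine hbad (r j0) (hr0.trans hj0i) ?_
  refine ext_hodPow (cut_mem (hX _ ((hr0.trans hj0i).trans hi)) i) hy fun a ha => ?_
  obtain ⟨j, ⟨hj, hrj⟩, hj', hji⟩ := hst _ (club_Ioi hlim (max_lt ha hj0i))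
  have hj2 : max a j0 < j := hj'
  obtain ⟨hr1, hc1⟩ := hr j hj hji
  have hle : j0 ≤ j := ((le_max_right a j0).trans_lt hj2).le
  have haj : a < j := (le_max_left a j0).trans_lt hj2
  have he : X (r j) = X (r j0) := by
    by_contra hne
    refine hdl' η hη (r j) hrj (r j0) hrj0 hne j0 hj0' ?_
    rw [hc0, ← cut_cut (x := X (r j)) hle, hc1, cut_cut hle]
  have h3 : a ∈ st (cut (X (r j0)) j) ↔ a ∈ st (cut y j) := by rw [← he, hc1]
  rw [st_cut, st_cut] at h3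
  rw [st_cut]
  exact ⟨fun h => (h3.1 ⟨h.1, haj⟩).1, fun h => ⟨(h3.2 ⟨h, haj⟩).1, ha⟩⟩

theorem clb : StCLB := by
  intro κ θ c X hκ hκθ hat hc hθ hX h
  have hκ0 : ℵ₀ < κ := hκ.unc
  have hc' : ℵ₀ < c := hκ0.trans (hκθ.trans_lt hθ)
  have hcf : ℵ₀ < c.ord.cof := reg_cof hc hc'
  have h0 : 0 < c.ord := pos_of_cof hcf
  have h1 : AE c.ord {i | i.cof < κ} (fun i => i ∉ BadSet X) := by
    rw [AE_iff]
    intro hst
    exact nonstat hat hc hθ h (hst.mono fun a ha _ => ⟨ha.1, not_not.1 ha.2⟩)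
  obtain ⟨C1, hC1, hgood⟩ := h1
  have h2 : ∀ η : Ordinal.{0}, ∃ δ < c.ord, η < c.ord → ∀ k ≤ η, ∀ k' ≤ η, X k ≠ X k' →
      ∀ g, δ < g → cut (X k) g ≠ cut (X k') g := by
    intro η
    by_cases hη : η < c.ord
    · obtain ⟨δ, hδ, h3⟩ := exists_dl hc hc' hX.1 hη
      exact ⟨δ, hδ, fun _ => h3⟩
    · exact ⟨0, h0, fun h' => absurd h' hη⟩
  choose dl hdl hdl' using h2
  have hC2 : Club {a | ∀ b < a, dl b < a} c.ord := Club.closure hc hc' dl fun a _ => hdl a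
  refine ⟨{a | a ≠ 0 ∧ UnbIn C1 a} ∩ {a | ∀ b < a, dl b < a},
    (club_lim hcf hC1).inter hcf hC2, fun i hi hic => ?_⟩
  obtain ⟨⟨hi0, hiu⟩, hicl⟩ := hi
  by_cases hcof : i.cof < κ
  · exact hgood i (hC1.2 i hic hi0 hiu) hic hcof
  · have hcof' : ℵ₀ < i.cof := hκ0.trans_le (not_lt.1 hcof)
    refine good hX.1 hic hcof' (club_at hC1 hic hiu) (fun j hj hji hjc => ?_) hicl
      fun η hη => hdl' η (hη.trans hic)
    refine hgood j hj (hji.trans hic) ?_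
    have h4 : j.cof < κ := by rw [hjc]; exact hκ0
    exact h4

end Pool.Agent.Helper80.HN.CLB
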